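import Mathlib
import Pool.Agent.NH95.OddCyc

/-!
# Corona plus ker is at most twice the independence number plus the number of odd cycles
-/

set_option autoImplicit false

open Finset

set_option linter.unusedSectionVars false

namespace Pool.Agent.Results.MP_7e5e3f_co.CoronaKerOddCycles

variable {V : Type*}

/-- `S` is a maximum independent set of `G`. -/
def IsMaxIndep (G : SimpleGraph V) (S : Finset V) : Prop :=
  G.IsIndepSet (S : Set V) ∧ S.card = G.indepNum

/-- `corona(G)`: the union of all maximum independent sets. -/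
def corona (G : SimpleGraph V) : Set V := {v | ∃ S, IsMaxIndep G S ∧ v ∈ S}

/-- `N(X)`: the set of the vertices adjacent to at least one vertex of `X`. -/
def nbhd (G : SimpleGraph V) (X : Finset V) : Set V := {w | ∃ x ∈ X, G.Adj x w}

/-- `d_G(X) = |X| - |N(X)|`. -/
noncomputable def dif (G : SimpleGraph V) (X : Finset V) : ℤ := (X.card : ℤ) - ((nbhd G X).ncard : ℤ)

/-- `X` is a critical independent set: an independent set maximizing `d_G`. -/
def IsCritical (G : SimpleGraph V) (X : Finset V) : Prop :=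
  G.IsIndepSet (X : Set V) ∧ ∀ Y : Finset V, G.IsIndepSet (Y : Set V) → dif G Y ≤ dif G X

/-- `ker(G)`: the intersection of all critical independent sets. -/
def ker (G : SimpleGraph V) : Set V := {v | ∀ X, IsCritical G X → v ∈ X}

/-- The edge sets of the odd cycles of `G`. -/
def oddCycles (G : SimpleGraph V) : Set (Set (Sym2 V)) :=
  {c | ∃ (v : V) (w : G.Walk v v), w.IsCycle ∧ Odd w.length ∧ c = {e | e ∈ w.edges}}

section

variable [Fintype V] [DecidableEq V] (G : SimpleGraph V)

theorem indep_iff (S : Finset V) :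
    G.IsIndepSet (S : Set V) ↔ ∀ x ∈ S, ∀ y ∈ S, ¬ G.Adj x y := by
  constructor
  · intro h x hx y hy hxy
    exact h (by exact_mod_cast hx) (by exact_mod_cast hy) hxy.ne hxy
  · intro h x hx y hy _ hxy
    exact h x (by exact_mod_cast hx) y (by exact_mod_cast hy) hxy

open Classical in
/-- the neighbourhood as a finite set -/
noncomputable def nb (X : Finset V) : Finset V := univ.filter fun w => ∃ x ∈ X, G.Adj x w

theorem mem_nb {X : Finset V} {w : V} : w ∈ nb G X ↔ ∃ x ∈ X, G.Adj x w := by
  simp [nb]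

theorem dif_eq (X : Finset V) : dif G X = (X.card : ℤ) - ((nb G X).card : ℤ) := by
  have : nbhd G X = (nb G X : Set V) := by
    ext w
    simp [nbhd, mem_nb]
  rw [dif, this, Set.ncard_coe_finset]

theorem exists_critical : ∃ I : Finset V, IsCritical G I := by
  classical
  obtain ⟨I, hI, hmax⟩ := Finset.exists_max_image
    ((univ : Finset (Finset V)).filter fun X : Finset V => G.IsIndepSet (X : Set V)) (dif G)
    ⟨∅, by simp [SimpleGraph.IsIndepSet]⟩
  rw [mem_filter] at hI
  exact ⟨I, hI.2, fun Y hY => hmax Y (by simp [hY])⟩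

variable {G}

theorem disj_nb {I : Finset V} (hI : G.IsIndepSet (I : Set V)) : Disjoint I (nb G I) := by
  rw [Finset.disjoint_left]
  intro x hx hx'
  obtain ⟨y, hy, hyx⟩ := (mem_nb G).1 hx'
  exact (indep_iff G I).1 hI y hy x hx hyx

/-- the matching of the neighbourhood into the critical set -/
theorem exists_matching {I : Finset V} (hI : IsCritical G I) :
    ∃ f : {b // b ∈ nb G I} → V, Function.Injective f ∧ ∀ b, f b ∈ I ∧ G.Adj (f b) b.1 := by
  classical
  have h := (Finset.all_card_le_biUnion_card_iff_exists_injective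
    (fun b : {b // b ∈ nb G I} => I.filter fun i => G.Adj i b.1)).1 (by
      intro s
      obtain ⟨R, hR⟩ : ∃ R, R = s.biUnion (fun b : {b // b ∈ nb G I} =>
        I.filter fun i => G.Adj i b.1) := ⟨_, rfl⟩
      rw [← hR]
      obtain ⟨B, hB⟩ : ∃ B : Finset V, B = s.map (Function.Embedding.subtype _) := ⟨_, rfl⟩
      have hBc : B.card = s.card := by rw [hB, card_map]
      have hBN : B ⊆ nb G I := by
        intro b hb
        rw [hB, mem_map] at hb
        obtain ⟨b', -, rfl⟩ := hb
        exact b'.2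
      have hRI : R ⊆ I := by
        intro x hx
        rw [hR, mem_biUnion] at hx
        obtain ⟨b, -, hb⟩ := hx
        exact (mem_filter.1 hb).1
      have hI' : G.IsIndepSet ((I \ R : Finset V) : Set V) := by
        rw [indep_iff]
        intro x hx y hy
        exact (indep_iff G I).1 hI.1 x (sdiff_subset hx) y (sdiff_subset hy)
      have hnb : nb G (I \ R) ⊆ nb G I \ B := by
        intro w hw
        obtain ⟨x, hx, hxw⟩ := (mem_nb G).1 hw
        rw [mem_sdiff] at hx
        rw [mem_sdiff]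
        refine ⟨(mem_nb G).2 ⟨x, hx.1, hxw⟩, fun hwB => hx.2 ?_⟩
        rw [hB, mem_map] at hwB
        obtain ⟨b, hb, rfl⟩ := hwB
        rw [hR, mem_biUnion]
        exact ⟨b, hb, mem_filter.2 ⟨hx.1, hxw⟩⟩
      have h1 := hI.2 _ hI'
      rw [dif_eq, dif_eq] at h1
      have h2 := card_le_card hnb
      rw [card_sdiff_of_subset hBN] at h2
      rw [card_sdiff_of_subset hRI] at h1
      have h3 := card_le_card hRI
      have h4 := card_le_card hBN
      rw [← hBc]
      omega)
  obtain ⟨f, hf, hft⟩ := h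
  exact ⟨f, hf, fun b => by
    have := hft b
    rw [mem_filter] at this
    exact this⟩

/-- the kernel lies in every maximum independent set -/
theorem ker_sub {S : Finset V} (hS : IsMaxIndep G S) {v : V} (hv : v ∈ ker G) : v ∈ S := by
  classical
  obtain ⟨I, hI⟩ := exists_critical G
  have hIi := (indep_iff G I).1 hI.1
  have hSi := (indep_iff G S).1 hS.1
  obtain ⟨X, hX⟩ : ∃ X, X = I ∪ nb G I := ⟨_, rfl⟩
  have hd := disj_nb hI.1
  -- exchange
  have h1 : G.IsIndepSet (((S \ X) ∪ I : Finset V) : Set V) := by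
    rw [indep_iff]
    intro x hx y hy hxy
    rw [mem_union] at hx hy
    rcases hx with hx | hx
    · rcases hy with hy | hy
      · exact hSi x (sdiff_subset hx) y (sdiff_subset hy) hxy
      · rw [mem_sdiff, hX, mem_union] at hx
        exact hx.2 (Or.inr ((mem_nb G).2 ⟨y, hy, hxy.symm⟩))
    · rcases hy with hy | hy
      · rw [mem_sdiff, hX, mem_union] at hy
        exact hy.2 (Or.inr ((mem_nb G).2 ⟨x, hx, hxy⟩))
      · exact hIi x hx y hy hxy
  have h2 := h1.card_le_indepNum
  have h3 : ((S \ X) ∪ I).card = (S \ X).card + I.card := by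
    rw [card_union_of_disjoint]
    rw [Finset.disjoint_left]
    intro x hx hx'
    rw [mem_sdiff, hX, mem_union] at hx
    exact hx.2 (Or.inl hx')
  have h4 : (S \ X).card + (S ∩ X).card = S.card := card_sdiff_add_card_inter S X
  have h5 : (S ∩ X).card = (S ∩ I).card + (S ∩ nb G I).card := by
    rw [hX, inter_union_distrib_left, card_union_of_disjoint]
    exact hd.mono inter_subset_right inter_subset_right
  -- the intersection is critical
  have h6 : nb G (S ∩ I) ⊆ nb G I \ (S ∩ nb G I) := by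
    intro w hw
    obtain ⟨x, hx, hxw⟩ := (mem_nb G).1 hw
    rw [mem_inter] at hx
    rw [mem_sdiff]
    refine ⟨(mem_nb G).2 ⟨x, hx.2, hxw⟩, fun hw' => ?_⟩
    exact hSi x hx.1 w (mem_inter.1 hw').1 hxw
  have h7 := card_le_card h6
  rw [card_sdiff_of_subset inter_subset_right] at h7
  have h8 : (S ∩ nb G I).card ≤ (nb G I).card := card_le_card inter_subset_right
  have hcrit : IsCritical G (S ∩ I) := by
    refine ⟨?_, fun Y hY => (hI.2 Y hY).trans ?_⟩
    · rw [indep_iff]
      intro x hx y hy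
      exact hIi x (mem_inter.1 hx).2 y (mem_inter.1 hy).2
    · rw [dif_eq, dif_eq]
      have h9 := hS.2
      omega
  exact (mem_inter.1 (hv _ hcrit)).1

/-- hitting all odd cycles -/
theorem exists_hit (G : SimpleGraph V) : ∃ T : Finset V, T.card ≤ (oddCycles G).ncard ∧
    ∀ W : Set V, (∀ x ∈ W, x ∉ T) → (G.induce W).Colorable 2 := by
  classical
  have hfin : (oddCycles G).Finite := Set.toFinite _
  rcases isEmpty_or_nonempty V with hV | hV
  · refine ⟨∅, by simp, fun W _ => ?_⟩
    exact ⟨⟨fun x => isEmptyElim x.1, fun {x} => isEmptyElim x.1⟩⟩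
  obtain ⟨t, ht⟩ : ∃ t : Set (Sym2 V) → V, ∀ c ∈ oddCycles G, ∃ w : G.Walk (t c) (t c),
      w.IsCycle ∧ c = {e | e ∈ w.edges} := by
    have h1 : ∀ c : Set (Sym2 V), ∃ v : V, c ∈ oddCycles G → ∃ w : G.Walk v v,
        w.IsCycle ∧ c = {e | e ∈ w.edges} := by
      intro c
      by_cases hc : c ∈ oddCycles G
      · obtain ⟨v, w, hw, -, hcw⟩ := hc
        exact ⟨v, fun _ => ⟨w, hw, hcw⟩⟩
      · exact ⟨Classical.arbitrary V, fun h => absurd h hc⟩
    choose t ht using h1
    exact ⟨t, ht⟩
  refine ⟨(hfin.toFinset).image t, ?_, fun W hW => ?_⟩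
  · rw [Set.ncard_eq_toFinset_card _ hfin]
    exact card_image_le
  by_contra hcon
  obtain ⟨v, p, hp, hodd⟩ := Pool.Agent.NH95.OC.exists_odd_cycle hcon
  obtain ⟨q, hq⟩ : ∃ q, q = p.map (SimpleGraph.Embedding.induce W : G.induce W ↪g G).toHom :=
    ⟨_, rfl⟩
  have hqc : q.IsCycle := by
    rw [hq]
    exact hp.map (SimpleGraph.Embedding.induce W : G.induce W ↪g G).injective
  have hqo : Odd q.length := by
    rw [hq, SimpleGraph.Walk.length_map]
    exact hodd
  have hmem : {e | e ∈ q.edges} ∈ oddCycles G := ⟨_, q, hqc, hqo, rfl⟩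
  obtain ⟨w, hw, hwe⟩ := ht _ hmem
  have hsup : t {e | e ∈ q.edges} ∈ q.support := by
    have hnn := hw.not_nil
    have h1 : s(t {e | e ∈ q.edges}, w.snd) ∈ w.edges := by
      have := w.mk_start_snd_mem_edges hnn
      exact this
    have h2 : s(t {e | e ∈ q.edges}, w.snd) ∈ ({e | e ∈ q.edges} : Set (Sym2 V)) :=
      (Set.ext_iff.1 hwe _).2 h1
    exact q.fst_mem_support_of_mem_edges h2
  rw [hq, SimpleGraph.Walk.support_map, List.mem_map] at hsup
  obtain ⟨x, -, hx⟩ := hsup
  have hx' : (x : V) = t {e | e ∈ q.edges} := by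
    rw [← hq] at hx
    exact hx
  refine hW x.1 x.2 ?_
  rw [hx']
  exact mem_image_of_mem t (hfin.mem_toFinset.2 hmem)

end

theorem result {V : Type*} [Finite V] (G : SimpleGraph V) :
    (corona G).ncard + (ker G).ncard ≤ 2 * G.indepNum + (oddCycles G).ncard := by
  classical
  have := Fintype.ofFinite V
  obtain ⟨I, hI⟩ := exists_critical G
  have hIi := (indep_iff G I).1 hI.1
  have hd := disj_nb hI.1
  obtain ⟨X, hX⟩ : ∃ X, X = I ∪ nb G I := ⟨_, rfl⟩
  obtain ⟨f, hf, hfI⟩ := exists_matching hI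
  obtain ⟨T, hT, hcol⟩ := exists_hit G
  -- corona and ker as finite sets
  obtain ⟨C, hC⟩ : ∃ C : Finset V, (C : Set V) = corona G :=
    ⟨(Set.toFinite (corona G)).toFinset, by simp⟩
  obtain ⟨K, hK⟩ : ∃ K : Finset V, (K : Set V) = ker G :=
    ⟨(Set.toFinite (ker G)).toFinset, by simp⟩
  have hCm : ∀ v, v ∈ C ↔ v ∈ corona G := fun v => by rw [← hC, mem_coe]
  have hKm : ∀ v, v ∈ K ↔ v ∈ ker G := fun v => by rw [← hK, mem_coe]
  rw [← hC, ← hK, Set.ncard_coe_finset, Set.ncard_coe_finset]
  have hKI : K ⊆ I := fun v hv => (hKm v).1 hv I hI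
  -- the part in the neighbourhood
  have h1 : (C ∩ nb G I).card ≤ (I \ K).card := by
    refine Finset.card_le_card_of_injOn (fun v => if h : v ∈ nb G I then f ⟨v, h⟩ else v) ?_ ?_
    · intro v hv
      have hv' := mem_inter.1 (mem_coe.1 hv)
      simp only [dif_pos hv'.2]
      rw [mem_coe, mem_sdiff]
      refine ⟨(hfI ⟨v, hv'.2⟩).1, fun hk => ?_⟩
      obtain ⟨S, hS, hvS⟩ := (hCm v).1 hv'.1
      have h2 := ker_sub hS ((hKm _).1 hk)
      exact (indep_iff G S).1 hS.1 _ h2 v hvS (hfI ⟨v, hv'.2⟩).2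
    · intro v hv u hu huv
      have hv' := mem_inter.1 (mem_coe.1 hv)
      have hu' := mem_inter.1 (mem_coe.1 hu)
      simp only [dif_pos hv'.2, dif_pos hu'.2] at huv
      have := hf huv
      simpa using this
  rw [card_sdiff_of_subset hKI] at h1
  have hKc := card_le_card hKI
  have h2 : C.card ≤ (C ∩ I).card + (C ∩ nb G I).card + (univ \ X).card := by
    have h3 : C ⊆ (C ∩ I) ∪ (C ∩ nb G I) ∪ (univ \ X) := by
      intro v hv
      by_cases h4 : v ∈ X
      · rw [hX, mem_union] at h4
        rw [mem_union, mem_union, mem_inter, mem_inter]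
        rcases h4 with h4 | h4
        · exact Or.inl (Or.inl ⟨hv, h4⟩)
        · exact Or.inl (Or.inr ⟨hv, h4⟩)
      · exact mem_union_right _ (mem_sdiff.2 ⟨mem_univ _, h4⟩)
    refine (card_le_card h3).trans ((card_union_le _ _).trans ?_)
    exact Nat.add_le_add_right (card_union_le _ _) _
  have h3 : (C ∩ I).card ≤ I.card := card_le_card inter_subset_right
  -- the part outside
  obtain ⟨W, hW⟩ : ∃ W : Finset V, W = (univ \ X) \ T := ⟨_, rfl⟩
  have h4 : (univ \ X).card ≤ W.card + T.card := by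
    rw [hW]
    have := le_card_sdiff T (univ \ X)
    omega
  obtain ⟨c⟩ := hcol (W : Set V) (fun x hx => by
    have hx' := mem_coe.1 hx
    rw [hW] at hx'
    exact (mem_sdiff.1 hx').2)
  obtain ⟨J, hJ⟩ : ∃ J : Fin 2 → Finset V, ∀ i, J i =
      univ.filter (fun v => ∃ h : v ∈ (W : Set V), c ⟨v, h⟩ = i) := ⟨_, fun _ => rfl⟩
  have hJm : ∀ i v, v ∈ J i ↔ ∃ h : v ∈ (W : Set V), c ⟨v, h⟩ = i := by
    intro i v
    rw [hJ]
    simp
  have h5 : W.card ≤ (J 0).card + (J 1).card := by
    refine le_trans (card_le_card ?_) (card_union_le _ _)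
    intro v hv
    rw [mem_union, hJm, hJm]
    have hv' : v ∈ (W : Set V) := mem_coe.2 hv
    rcases Fin.exists_fin_two.1 ⟨c ⟨v, hv'⟩, rfl⟩ with h | h
    · exact Or.inl ⟨hv', h⟩
    · exact Or.inr ⟨hv', h⟩
  have h6 : ∀ i, I.card + (J i).card ≤ G.indepNum := by
    intro i
    have hJW : ∀ v ∈ J i, v ∉ X := by
      intro v hv
      obtain ⟨h, -⟩ := (hJm i v).1 hv
      have h' := mem_coe.1 h
      rw [hW] at h'
      exact (mem_sdiff.1 (mem_sdiff.1 h').1).2
    have h7 : G.IsIndepSet ((I ∪ J i : Finset V) : Set V) := by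
      rw [indep_iff]
      intro x hx y hy hxy
      rw [mem_union] at hx hy
      rcases hx with hx | hx
      · rcases hy with hy | hy
        · exact hIi x hx y hy hxy
        · refine hJW y hy ?_
          rw [hX, mem_union]
          exact Or.inr ((mem_nb G).2 ⟨x, hx, hxy⟩)
      · rcases hy with hy | hy
        · refine hJW x hx ?_
          rw [hX, mem_union]
          exact Or.inr ((mem_nb G).2 ⟨y, hy, hxy.symm⟩)
        · obtain ⟨ha, hb⟩ := (hJm i x).1 hx
          obtain ⟨ha', hb'⟩ := (hJm i y).1 hy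
          have hadj : (G.induce (W : Set V)).Adj ⟨x, ha⟩ ⟨y, ha'⟩ := hxy
          exact c.valid hadj (hb.trans hb'.symm)
    have h8 := h7.card_le_indepNum
    rwa [card_union_of_disjoint] at h8
    rw [Finset.disjoint_left]
    intro x hx hx'
    refine hJW x hx' ?_
    rw [hX, mem_union]
    exact Or.inl hx
  have h7 := h6 0
  have h8 := h6 1
  omega

end Pool.Agent.Results.MP_7e5e3f_co.CoronaKerOddCycles
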